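import Pool.Agent.Helper95.PW.Stmts

/-! # PW row NR: the number of electrons in a ball (from CUB) -/

set_option autoImplicit false

namespace Pool.Agent.Helper95.PW

open MeasureTheory Filter

namespace NR49

theorem cube_meas (c : R3) (l : ℝ) : MeasurableSet (cube c l) := by
  have h : cube c l = Set.pi Set.univ (fun i => Set.Ico (c i) (c i + l)) := by
    ext y
    simp [cube, Set.mem_pi]
  rw [h]
  exact MeasurableSet.univ_pi fun i => measurableSet_Ico

theorem cube_meas' {n : ℕ} (k : Fin n) (c : R3) (l : ℝ) :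
    MeasurableSet {x : Cf n | x k ∈ cube c l} := (measurable_pi_apply k) (cube_meas c l)

theorem nr_cont : Continuous nr := by
  unfold nr
  fun_prop

theorem ball_meas {n : ℕ} (k : Fin n) (R : ℝ) : MeasurableSet {x : Cf n | nr (x k) ≤ R} :=
  (isClosed_le (nr_cont.comp (continuous_apply k)) continuous_const).measurableSet

theorem int_sq {n : ℕ} {v : Cf n → ℝ} (h1 : Continuous v) (h2 : HasCompactSupport v) :
    Integrable (fun x => v x ^ 2) := by
  apply Continuous.integrable_of_hasCompactSupport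
  · exact h1.pow 2
  · exact h2.comp_left (g := fun y : ℝ => y ^ 2) (by norm_num)

theorem dv_sm {n : ℕ} {v : Cf n → ℝ} (h1 : ContDiff ℝ (⊤ : ℕ∞) v) (h2 : HasCompactSupport v)
    (k : Fin n) (i : Fin 3) : Continuous (dv k i v) ∧ HasCompactSupport (dv k i v) := by
  constructor
  · unfold dv
    exact (h1.continuous_fderiv (by simp)).clm_apply continuous_const
  · exact h2.fderiv_apply (𝕜 := ℝ) _

/-- corners of the cubes -/
noncomputable def cor (R l : ℝ) {m : ℕ} (j : Fin 3 → Fin m) : R3 :=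
  fun i => -(3 / 2) * R + l * (j i : ℝ)

theorem cover {R : ℝ} (hR : 0 < R) {m : ℕ} (hm : 1 ≤ m) {y : R3} (hy : nr y ≤ R) :
    ∃ j : Fin 3 → Fin m, y ∈ cube (cor R (3 * R / m) j) (3 * R / m) := by
  have hm' : (0 : ℝ) < m := by exact_mod_cast hm
  have hl : 0 < 3 * R / m := by positivity
  have hn : y 0 ^ 2 + y 1 ^ 2 + y 2 ^ 2 ≤ R ^ 2 := by
    unfold nr at hy
    exact (Real.sqrt_le_left hR.le).1 hy
  have hyi : ∀ i, |y i| ≤ R := by
    intro i
    apply abs_le_of_sq_le_sq _ hR.le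
    fin_cases i
    · change y 0 ^ 2 ≤ R ^ 2
      nlinarith [sq_nonneg (y 1), sq_nonneg (y 2)]
    · change y 1 ^ 2 ≤ R ^ 2
      nlinarith [sq_nonneg (y 0), sq_nonneg (y 2)]
    · change y 2 ^ 2 ≤ R ^ 2
      nlinarith [sq_nonneg (y 0), sq_nonneg (y 1)]
  have hex : ∀ i, ∃ j : Fin m, -(3 / 2) * R + 3 * R / m * (j : ℝ) ≤ y i ∧
      y i < -(3 / 2) * R + 3 * R / m * (j : ℝ) + 3 * R / m := by
    intro i
    obtain ⟨h1, h2⟩ := abs_le.1 (hyi i)
    set t := (y i + 3 / 2 * R) / (3 * R / m) with ht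
    have ht0 : 0 ≤ t := div_nonneg (by linarith) hl.le
    have htm : t < m := by
      rw [ht, div_lt_iff₀ hl]
      have : (m : ℝ) * (3 * R / m) = 3 * R := by field_simp
      rw [this]
      linarith
    have ht2 : t * (3 * R / m) = y i + 3 / 2 * R := by
      rw [ht]
      field_simp
    have hfl : (⌊t⌋₊ : ℝ) ≤ t := Nat.floor_le ht0
    have hfu : t < ⌊t⌋₊ + 1 := Nat.lt_floor_add_one t
    refine ⟨⟨⌊t⌋₊, (Nat.floor_lt ht0).2 htm⟩, ?_, ?_⟩
    · have h3 : 3 * R / m * (⌊t⌋₊ : ℝ) ≤ 3 * R / m * t := mul_le_mul_of_nonneg_left hfl hl.le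
      change -(3 / 2) * R + 3 * R / m * (⌊t⌋₊ : ℝ) ≤ y i
      nlinarith
    · have h3 : 3 * R / m * t < 3 * R / m * (⌊t⌋₊ + 1) := mul_lt_mul_of_pos_left hfu hl
      change y i < -(3 / 2) * R + 3 * R / m * (⌊t⌋₊ : ℝ) + 3 * R / m
      nlinarith
  choose j hj using hex
  exact ⟨j, hj⟩

theorem disj {R l : ℝ} (hl : 0 < l) {m : ℕ} {j j' : Fin 3 → Fin m} {y : R3}
    (h : y ∈ cube (cor R l j) l) (h' : y ∈ cube (cor R l j') l) : j = j' := by
  funext i
  obtain ⟨a1, a2⟩ := h i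
  obtain ⟨b1, b2⟩ := h' i
  unfold cor at a1 a2 b1 b2
  have h1 : ((j i : ℕ) : ℝ) < (j' i : ℕ) + 1 := by
    by_contra hc
    push Not at hc
    have := mul_le_mul_of_nonneg_left hc hl.le
    nlinarith
  have h2 : ((j' i : ℕ) : ℝ) < (j i : ℕ) + 1 := by
    by_contra hc
    push Not at hc
    have := mul_le_mul_of_nonneg_left hc hl.le
    nlinarith
  have h3 : (j i : ℕ) < (j' i : ℕ) + 1 := by exact_mod_cast h1
  have h4 : (j' i : ℕ) < (j i : ℕ) + 1 := by exact_mod_cast h2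
  apply Fin.ext
  omega

theorem lower {n : ℕ} (k : Fin n) {R : ℝ} (hR : 0 < R) {m : ℕ} (hm : 1 ≤ m) {f : Cf n → ℝ}
    (hf : Integrable f) (h0 : ∀ x, 0 ≤ f x) :
    ∫ x in {x : Cf n | nr (x k) ≤ R}, f x ≤
      ∑ j : Fin 3 → Fin m, ∫ x in {x : Cf n | x k ∈ cube (cor R (3 * R / m) j) (3 * R / m)}, f x := by
  have hm' : (0 : ℝ) < m := by exact_mod_cast hm
  have hl : 0 < 3 * R / m := by positivity
  rw [← integral_iUnion_fintype (fun j => cube_meas' k _ _) (by
    intro j j' hjj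
    rw [Function.onFun, Set.disjoint_left]
    intro x hx hx'
    exact hjj (disj hl hx hx')) fun j => hf.integrableOn]
  apply setIntegral_mono_set hf.integrableOn
  · exact Filter.Eventually.of_forall fun x => h0 x
  · apply Filter.Eventually.of_forall
    intro x hx
    obtain ⟨j, hj⟩ := cover hR hm (show nr (x k) ≤ R from hx)
    exact Set.mem_iUnion.2 ⟨j, hj⟩

theorem upper {n : ℕ} (k : Fin n) {R : ℝ} (hR : 0 < R) {m : ℕ} (hm : 1 ≤ m) {f : Cf n → ℝ}
    (hf : Integrable f) (h0 : ∀ x, 0 ≤ f x) :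
    ∑ j : Fin 3 → Fin m, ∫ x in {x : Cf n | x k ∈ cube (cor R (3 * R / m) j) (3 * R / m)}, f x ≤
      ∫ x, f x := by
  have hm' : (0 : ℝ) < m := by exact_mod_cast hm
  have hl : 0 < 3 * R / m := by positivity
  rw [← integral_iUnion_fintype (fun j => cube_meas' k _ _) (by
    intro j j' hjj
    rw [Function.onFun, Set.disjoint_left]
    intro x hx hx'
    exact hjj (disj hl hx hx')) fun j => hf.integrableOn]
  exact setIntegral_le_integral hf (Filter.Eventually.of_forall fun x => h0 x)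

theorem one_ball {n : ℕ} (u : Wf n) (hu : Sm u) (R : ℝ) :
    one (ball R) u = ∑ k, ∑ s, ∫ x in {x : Cf n | nr (x k) ≤ R}, u s x ^ 2 := by
  unfold one
  rw [Finset.sum_comm]
  refine Finset.sum_congr rfl fun s _ => ?_
  have hint := int_sq (hu s).1.continuous (hu s).2
  have h1 : ∀ k : Fin n, ∀ x : Cf n, ball R (x k) * u s x ^ 2 =
      Set.indicator {x : Cf n | nr (x k) ≤ R} (fun x => u s x ^ 2) x := by
    intro k x
    unfold ball
    by_cases hx : nr (x k) ≤ R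
    · rw [Set.indicator_of_mem (show x k ∈ {y : R3 | nr y ≤ R} from hx),
        Set.indicator_of_mem (show x ∈ {x : Cf n | nr (x k) ≤ R} from hx), one_mul]
    · rw [Set.indicator_of_notMem (show x k ∉ {y : R3 | nr y ≤ R} from hx),
        Set.indicator_of_notMem (show x ∉ {x : Cf n | nr (x k) ≤ R} from hx), zero_mul]
  have h2 : ∀ x : Cf n, (∑ k, ball R (x k)) * u s x ^ 2 =
      ∑ k, Set.indicator {x : Cf n | nr (x k) ≤ R} (fun x => u s x ^ 2) x := by
    intro x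
    rw [Finset.sum_mul]
    exact Finset.sum_congr rfl fun k _ => h1 k x
  simp only [h2]
  rw [integral_finsetSum _ fun k _ => hint.indicator (ball_meas k R)]
  refine Finset.sum_congr rfl fun k _ => ?_
  rw [integral_indicator (ball_meas k R)]

theorem sq_nn {n : ℕ} (u : Wf n) : 0 ≤ sq u :=
  Finset.sum_nonneg fun s _ => integral_nonneg fun x => sq_nonneg _

theorem kin_nn {n : ℕ} (u : Wf n) : 0 ≤ kin u :=
  Finset.sum_nonneg fun k _ => Finset.sum_nonneg fun i _ => sq_nn _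

theorem kin_eq {n : ℕ} (u : Wf n) (hu : Sm u) :
    kin u = ∑ k, ∑ s, ∫ x, ∑ i, dv k i (u s) x ^ 2 := by
  unfold kin
  refine Finset.sum_congr rfl fun k _ => ?_
  unfold sq
  rw [Finset.sum_comm]
  refine Finset.sum_congr rfl fun s _ => ?_
  rw [integral_finsetSum]
  intro i _
  obtain ⟨h1, h2⟩ := dv_sm (hu s).1 (hu s).2 k i
  exact int_sq h1 h2

theorem swap3 {n m : ℕ} (F : Fin n → (Fin n → Fin 2) → (Fin 3 → Fin m) → ℝ) :
    ∑ k, ∑ s, ∑ j, F k s j = ∑ j, ∑ k, ∑ s, F k s j := by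
  have h : ∀ k, ∑ s, ∑ j, F k s j = ∑ j, ∑ s, F k s j := fun k => Finset.sum_comm
  rw [Finset.sum_congr rfl fun k _ => h k]
  exact Finset.sum_comm

theorem step {C : ℝ} (hC : 0 < C) (hcub : ∀ (n : ℕ) (u : Wf n) (c : R3) (l : ℝ),
    Sm u → Anti u → 0 < l →
    ∑ k, ∑ s, ∫ x in {x : Cf n | x k ∈ cube c l}, u s x ^ 2 ≤
      2 * sq u + C * l ^ 2 *
        ∑ k, ∑ s, ∫ x in {x : Cf n | x k ∈ cube c l}, ∑ i, dv k i (u s) x ^ 2)
    {n : ℕ} (u : Wf n) (hu : Sm u) (ha : Anti u) {R : ℝ} (hR : 0 < R) {m : ℕ} (hm : 1 ≤ m) :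
    one (ball R) u ≤ 2 * (m : ℝ) ^ 3 * sq u + C * (3 * R / m) ^ 2 * kin u := by
  have hm' : (0 : ℝ) < m := by exact_mod_cast hm
  have hl : 0 < 3 * R / m := by positivity
  have hdint : ∀ (k : Fin n) (s : Fin n → Fin 2),
      Integrable (fun x => ∑ i, dv k i (u s) x ^ 2) := by
    intro k s
    apply integrable_finsetSum
    intro i _
    obtain ⟨h1, h2⟩ := dv_sm (hu s).1 (hu s).2 k i
    exact int_sq h1 h2
  calc one (ball R) u
      = ∑ k, ∑ s, ∫ x in {x : Cf n | nr (x k) ≤ R}, u s x ^ 2 := one_ball u hu R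
    _ ≤ ∑ k, ∑ s, ∑ j : Fin 3 → Fin m,
          ∫ x in {x : Cf n | x k ∈ cube (cor R (3 * R / m) j) (3 * R / m)}, u s x ^ 2 := by
        refine Finset.sum_le_sum fun k _ => Finset.sum_le_sum fun s _ => ?_
        exact lower k hR hm (int_sq (hu s).1.continuous (hu s).2) fun x => sq_nonneg _
    _ = ∑ j : Fin 3 → Fin m, ∑ k, ∑ s,
          ∫ x in {x : Cf n | x k ∈ cube (cor R (3 * R / m) j) (3 * R / m)}, u s x ^ 2 := by
        exact swap3 _
    _ ≤ ∑ j : Fin 3 → Fin m, (2 * sq u + C * (3 * R / m) ^ 2 * ∑ k, ∑ s,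
          ∫ x in {x : Cf n | x k ∈ cube (cor R (3 * R / m) j) (3 * R / m)},
            ∑ i, dv k i (u s) x ^ 2) := by
        exact Finset.sum_le_sum fun j _ => hcub n u _ _ hu ha hl
    _ = 2 * (m : ℝ) ^ 3 * sq u + C * (3 * R / m) ^ 2 * ∑ k, ∑ s, ∑ j : Fin 3 → Fin m,
          ∫ x in {x : Cf n | x k ∈ cube (cor R (3 * R / m) j) (3 * R / m)},
            ∑ i, dv k i (u s) x ^ 2 := by
        rw [Finset.sum_add_distrib]
        congr 1
        · rw [Finset.sum_const, Finset.card_univ, Fintype.card_fun, Fintype.card_fin,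
            Fintype.card_fin, nsmul_eq_mul]
          push_cast
          ring
        · rw [← Finset.mul_sum]
          congr 1
          exact (swap3 _).symm
    _ ≤ 2 * (m : ℝ) ^ 3 * sq u + C * (3 * R / m) ^ 2 * ∑ k, ∑ s,
          ∫ x, ∑ i, dv k i (u s) x ^ 2 := by
        have h1 : ∑ k, ∑ s, ∑ j : Fin 3 → Fin m,
            ∫ x in {x : Cf n | x k ∈ cube (cor R (3 * R / m) j) (3 * R / m)},
              ∑ i, dv k i (u s) x ^ 2 ≤ ∑ k, ∑ s, ∫ x, ∑ i, dv k i (u s) x ^ 2 := by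
          refine Finset.sum_le_sum fun k _ => Finset.sum_le_sum fun s _ => ?_
          exact upper k hR hm (hdint k s) fun x => Finset.sum_nonneg fun i _ => sq_nonneg _
        have h2 : 0 ≤ C * (3 * R / m) ^ 2 := by positivity
        have h3 := mul_le_mul_of_nonneg_left h1 h2
        linarith
    _ = 2 * (m : ℝ) ^ 3 * sq u + C * (3 * R / m) ^ 2 * kin u := by rw [kin_eq u hu]

end NR49

open NR49 in
theorem st_NR (hCUB : ST_CUB) : ST_NR := by
  obtain ⟨C, hC, hcub⟩ := hCUB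
  refine ⟨144 + 9 * C, by positivity, ?_⟩
  intro n u hu ha hsq R hR
  set K := kin u * R ^ 2 with hK
  have hkin := kin_nn u
  have hK0 : 0 ≤ K := mul_nonneg hkin (sq_nonneg _)
  set a := K ^ (1 / 5 : ℝ) with hadef
  have ha0 : 0 ≤ a := Real.rpow_nonneg hK0 _
  have ha5 : a ^ 5 = K := by
    rw [hadef, ← Real.rpow_natCast, ← Real.rpow_mul hK0]
    norm_num
  have ha3 : a ^ 3 = K ^ (3 / 5 : ℝ) := by
    rw [hadef, ← Real.rpow_natCast, ← Real.rpow_mul hK0]
    norm_num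
  have hm1 : 1 ≤ ⌈a⌉₊ + 1 := by omega
  have hma : a ≤ ((⌈a⌉₊ + 1 : ℕ) : ℝ) := by
    push_cast
    linarith [Nat.le_ceil a]
  have hmb : ((⌈a⌉₊ + 1 : ℕ) : ℝ) ≤ a + 2 := by
    push_cast
    linarith [Nat.ceil_lt_add_one ha0]
  have hs := step hC hcub u hu ha hR hm1
  set M := ((⌈a⌉₊ + 1 : ℕ) : ℝ) with hM
  have hM1 : 1 ≤ M := by
    rw [hM]
    exact_mod_cast hm1
  have h1 : 2 * M ^ 3 * sq u ≤ 16 * a ^ 3 + 128 := by
    have e1 : M ^ 3 ≤ (a + 2) ^ 3 := pow_le_pow_left₀ (by linarith) hmb 3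
    have e2 : (a + 2) ^ 3 ≤ 4 * a ^ 3 + 32 := by
      nlinarith [mul_nonneg (by linarith : 0 ≤ a + 2) (sq_nonneg (a - 2))]
    have e3 : 2 * M ^ 3 * sq u ≤ 2 * M ^ 3 * 2 :=
      mul_le_mul_of_nonneg_left hsq (by positivity)
    linarith
  have h2 : C * (3 * R / M) ^ 2 * kin u ≤ 9 * C * a ^ 3 := by
    have e1 : C * (3 * R / M) ^ 2 * kin u = 9 * C * (K / M ^ 2) := by
      rw [hK]
      field_simp
      ring
    have e2 : K / M ^ 2 ≤ a ^ 3 := by
      rw [div_le_iff₀ (by positivity), ← ha5]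
      have : a ^ 2 ≤ M ^ 2 := pow_le_pow_left₀ ha0 hma 2
      have h3 : 0 ≤ a ^ 3 := by positivity
      calc a ^ 5 = a ^ 3 * a ^ 2 := by ring
        _ ≤ a ^ 3 * M ^ 2 := mul_le_mul_of_nonneg_left this h3
    rw [e1]
    exact mul_le_mul_of_nonneg_left e2 (by positivity)
  have h3 : 0 ≤ a ^ 3 := by positivity
  rw [← ha3]
  nlinarith [mul_nonneg hC.le h3]

end Pool.Agent.Helper95.PW
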